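import Mathlib
set_option autoImplicit false
open MeasureTheory AddCircle Filter Topology

namespace Run7.h554.Toe

local instance : Fact ((0:ℝ) < 1) := ⟨one_pos⟩

/-- The singular inner function `exp (-(1+z)/(1-z))`. -/
noncomputable def S (z : ℂ) : ℂ := Complex.exp (-((1 + z) / (1 - z)))

lemma re_cayley (z : ℂ) : ((1 + z) / (1 - z)).re = (1 - ‖z‖ ^ 2) / ‖1 - z‖ ^ 2 := by
  rw [Complex.div_re, ← Complex.normSq_eq_norm_sq, ← Complex.normSq_eq_norm_sq, ← add_div]
  congr 1
  simp [Complex.normSq_apply]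
  ring

lemma norm_S (z : ℂ) : ‖S z‖ = Real.exp (-((1 - ‖z‖ ^ 2) / ‖1 - z‖ ^ 2)) := by
  rw [S, Complex.norm_exp, Complex.neg_re, re_cayley]

lemma norm_S_le (z : ℂ) (hz : ‖z‖ ≤ 1) : ‖S z‖ ≤ 1 := by
  rw [norm_S, Real.exp_le_one_iff, neg_nonpos]
  apply div_nonneg _ (sq_nonneg _)
  nlinarith [norm_nonneg z]

lemma norm_S_eq (z : ℂ) (hz : ‖z‖ = 1) : ‖S z‖ = 1 := by
  rw [norm_S, hz]; simp

lemma S_conj (z : ℂ) : S ((starRingEnd ℂ) z) = (starRingEnd ℂ) (S z) := by
  rw [S, S, ← Complex.exp_conj]; simp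

lemma continuousAt_S (z : ℂ) (hz : z ≠ 1) : ContinuousAt S z := by
  unfold S
  have h : (1 - z) ≠ 0 := sub_ne_zero.mpr (Ne.symm hz)
  fun_prop (disch := assumption)

lemma measurable_S : Measurable S := by
  unfold S
  fun_prop

lemma differentiableOn_S : DifferentiableOn ℂ S (Metric.ball 0 1) := by
  intro z hz
  have h : (1 - z) ≠ 0 := by
    intro h
    have : z = 1 := by linear_combination -h
    rw [this] at hz
    simp at hz
  apply DifferentiableAt.differentiableWithinAt
  unfold S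
  fun_prop (disch := assumption)

/-- Taylor coefficients. -/
noncomputable def a (m : ℕ) : ℂ := (m.factorial : ℂ)⁻¹ * iteratedDeriv m S 0

lemma hasSum_S (z : ℂ) (hz : ‖z‖ < 1) : HasSum (fun m => a m * z ^ m) (S z) := by
  have h := Complex.hasSum_taylorSeries_on_ball differentiableOn_S (z := z) (by simpa using hz)
  refine h.congr_fun ?_
  intro m
  simp only [a, sub_zero, smul_eq_mul]
  ring

/-- The boundary function. -/
noncomputable def u (t : AddCircle (1:ℝ)) : ℂ := S (fourier 1 t)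

noncomputable def ur (r : ℝ) (t : AddCircle (1:ℝ)) : ℂ := S (r * fourier 1 t)

lemma norm_fourier_apply (n : ℤ) (t : AddCircle (1:ℝ)) : ‖(fourier n t : ℂ)‖ = 1 := by
  rw [fourier_apply]; exact Circle.norm_coe _

lemma measurable_fourier (n : ℤ) : Measurable (fun t : AddCircle (1:ℝ) => (fourier n t : ℂ)) :=
  (fourier n : C(AddCircle (1:ℝ), ℂ)).continuous.measurable

lemma measurable_u : Measurable u := measurable_S.comp (measurable_fourier 1)

lemma measurable_ur (r : ℝ) : Measurable (ur r) :=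
  measurable_S.comp ((measurable_fourier 1).const_mul _)

lemma norm_u (t : AddCircle (1:ℝ)) : ‖u t‖ = 1 := norm_S_eq _ (norm_fourier_apply 1 t)

lemma norm_ur_le (r : ℝ) (h0 : 0 ≤ r) (h1 : r ≤ 1) (t : AddCircle (1:ℝ)) : ‖ur r t‖ ≤ 1 := by
  apply norm_S_le
  rw [norm_mul, norm_fourier_apply, mul_one, Complex.norm_real, Real.norm_of_nonneg h0]
  exact h1

lemma fourier_pow (m : ℕ) (t : AddCircle (1:ℝ)) : (fourier 1 t : ℂ) ^ m = fourier (m : ℤ) t := by
  induction m with
  | zero => simp
  | succ m ih =>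
    rw [pow_succ, ih, ← fourier_add]
    norm_cast

lemma fourierCoeff_ur (r : ℝ) (h0 : 0 ≤ r) (h1 : r < 1) (k : ℤ) :
    HasSum (fun m : ℕ => a m * r ^ m * (if (m : ℤ) = k then 1 else 0)) (fourierCoeff (ur r) k) := by
  set F : ℕ → AddCircle (1:ℝ) → ℂ := fun m t => fourier (-k) t • (a m * r ^ m * fourier (m:ℤ) t)
    with hF
  have hr : ‖(r:ℂ)‖ < 1 := by rwa [Complex.norm_real, Real.norm_of_nonneg h0]
  have hint : ∀ m, Integrable (F m) haarAddCircle := by
    intro m
    apply Continuous.integrable_of_hasCompactSupport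
    · simp only [hF]
      have h1 := (fourier (-k) : C(AddCircle (1:ℝ), ℂ)).continuous
      have h2 := (fourier (m:ℤ) : C(AddCircle (1:ℝ), ℂ)).continuous
      fun_prop
    · exact HasCompactSupport.of_compactSpace _
  have hnorm : ∀ m, ∫ t, ‖F m t‖ ∂haarAddCircle = ‖a m * (r:ℂ) ^ m‖ := by
    intro m
    have : ∀ t, ‖F m t‖ = ‖a m * (r:ℂ) ^ m‖ := by
      intro t
      simp only [hF]
      rw [norm_smul, norm_mul, norm_fourier_apply, norm_fourier_apply]
      ring
    simp [this]
  have hsum : Summable (fun m => ∫ t, ‖F m t‖ ∂haarAddCircle) := by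
    simp_rw [hnorm]
    exact (hasSum_S r hr).summable.norm
  have h := hasSum_integral_of_summable_integral_norm hint hsum
  have e1 : ∀ m, ∫ t, F m t ∂haarAddCircle = a m * r ^ m * (if (m : ℤ) = k then 1 else 0) := by
    intro m
    have h2 : ∫ t, F m t ∂haarAddCircle
        = a m * r ^ m * fourierCoeff (fourier (m:ℤ) : C(AddCircle (1:ℝ), ℂ)) k := by
      rw [fourierCoeff, ← integral_const_mul]
      apply integral_congr_ae
      filter_upwards with t
      simp only [hF, smul_eq_mul]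
      ring
    rw [h2, fourierCoeff_fourier]
    simp [Pi.single_apply, eq_comm]
  have e2 : (∫ t, ∑' m, F m t ∂haarAddCircle) = fourierCoeff (ur r) k := by
    rw [fourierCoeff]
    apply integral_congr_ae
    filter_upwards with t
    have h3 : HasSum (fun m => F m t) (fourier (-k) t • ur r t) := by
      simp only [hF]
      apply HasSum.const_smul
      have h4 := hasSum_S (r * fourier 1 t) (by
        rw [norm_mul, norm_fourier_apply, mul_one]; exact hr)
      have e5 : ur r t = S (r * fourier 1 t) := rfl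
      rw [e5]
      refine h4.congr_fun ?_
      intro m
      rw [mul_pow, fourier_pow]
      ring
    exact h3.tsum_eq
  rw [e2] at h
  simp_rw [e1] at h
  exact h

lemma fourierCoeff_ur_nat (r : ℝ) (h0 : 0 ≤ r) (h1 : r < 1) (m : ℕ) :
    fourierCoeff (ur r) (m : ℤ) = a m * r ^ m := by
  have h := fourierCoeff_ur r h0 h1 m
  have h2 := hasSum_single (f := fun n : ℕ => a n * r ^ n * (if (n : ℤ) = m then 1 else 0)) m
    (by intro b hb; simp [hb])
  have := h.unique h2
  simpa using this

lemma fourierCoeff_ur_neg (r : ℝ) (h0 : 0 ≤ r) (h1 : r < 1) (k : ℤ) (hk : k < 0) :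
    fourierCoeff (ur r) k = 0 := by
  have h := fourierCoeff_ur r h0 h1 k
  have h2 : HasSum (fun n : ℕ => a n * r ^ n * (if (n : ℤ) = k then 1 else 0)) (0:ℂ) := by
    convert hasSum_zero using 2 with n
    have : (n:ℤ) ≠ k := by omega
    simp [this]
  exact h.unique h2

lemma haar_singleton (t : AddCircle (1:ℝ)) : (haarAddCircle : Measure (AddCircle (1:ℝ))) {t} = 0 := by
  have h := AddCircle.volume_closedBall (T := 1) (x := t) 0
  rw [AddCircle.volume_eq_smul_haarAddCircle] at h
  simpa using h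

lemma ae_ne (t : AddCircle (1:ℝ)) : ∀ᵐ s ∂(haarAddCircle : Measure (AddCircle (1:ℝ))), s ≠ t := by
  rw [ae_iff]
  simpa using haar_singleton t

lemma fourier_one_ne (t : AddCircle (1:ℝ)) (ht : t ≠ 0) : (fourier 1 t : ℂ) ≠ 1 := by
  intro h
  apply ht
  have h1 : AddCircle.toCircle t = AddCircle.toCircle (0 : AddCircle (1:ℝ)) := by
    rw [AddCircle.toCircle_zero]
    ext
    rw [← fourier_one, h]; simp
  exact AddCircle.injective_toCircle one_ne_zero h1

noncomputable def rs (n : ℕ) : ℝ := 1 - 1 / ((n:ℝ) + 1)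

lemma rs_nonneg (n : ℕ) : 0 ≤ rs n := by
  unfold rs
  rw [sub_nonneg, div_le_one (by positivity)]
  linarith [(Nat.cast_nonneg n : (0:ℝ) ≤ n)]

lemma rs_lt (n : ℕ) : rs n < 1 := by
  unfold rs
  have : (0:ℝ) < 1 / ((n:ℝ) + 1) := by positivity
  linarith

lemma rs_tendsto : Tendsto rs atTop (𝓝 1) := by
  have h := tendsto_one_div_add_atTop_nhds_zero_nat (𝕜 := ℝ)
  have h2 := h.const_sub 1
  rw [sub_zero] at h2
  exact h2

lemma tendsto_coeff (k : ℤ) :
    Tendsto (fun n => fourierCoeff (ur (rs n)) k) atTop (𝓝 (fourierCoeff u k)) := by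
  unfold fourierCoeff
  apply tendsto_integral_of_dominated_convergence (fun _ => (1:ℝ))
  · intro n
    exact ((measurable_fourier (-k)).smul (measurable_ur _)).aestronglyMeasurable
  · exact integrable_const _
  · intro n
    filter_upwards with t
    rw [norm_smul, norm_fourier_apply, one_mul]
    exact norm_ur_le _ (rs_nonneg n) (rs_lt n).le t
  · filter_upwards [ae_ne 0] with t ht
    apply Tendsto.const_smul
    have hc := continuousAt_S _ (fourier_one_ne t ht)
    have h1 : Tendsto (fun n => ((rs n : ℝ) : ℂ) * fourier 1 t) atTop (𝓝 (fourier 1 t)) := by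
      have h2 : Tendsto (fun n => ((rs n : ℝ) : ℂ)) atTop (𝓝 ((1:ℝ):ℂ)) :=
        (Complex.continuous_ofReal.tendsto 1).comp rs_tendsto
      have h3 := h2.mul_const (fourier 1 t : ℂ)
      simpa using h3
    exact hc.tendsto.comp h1

lemma coeff_nat (m : ℕ) : fourierCoeff u (m : ℤ) = a m := by
  have h := tendsto_coeff m
  have h2 : Tendsto (fun n => fourierCoeff (ur (rs n)) (m:ℤ)) atTop (𝓝 (a m)) := by
    have h3 : ∀ n, fourierCoeff (ur (rs n)) (m:ℤ) = a m * (rs n : ℂ) ^ m :=
      fun n => fourierCoeff_ur_nat _ (rs_nonneg n) (rs_lt n) m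
    simp_rw [h3]
    have h4 : Tendsto (fun n => ((rs n : ℝ) : ℂ)) atTop (𝓝 ((1:ℝ):ℂ)) :=
      (Complex.continuous_ofReal.tendsto 1).comp rs_tendsto
    have h5 := (h4.pow m).const_mul (a m)
    simpa using h5
  exact tendsto_nhds_unique h h2

lemma coeff_neg (k : ℤ) (hk : k < 0) : fourierCoeff u k = 0 := by
  have h := tendsto_coeff k
  have h3 : ∀ n, fourierCoeff (ur (rs n)) k = 0 :=
    fun n => fourierCoeff_ur_neg _ (rs_nonneg n) (rs_lt n) k hk
  simp_rw [h3] at h
  exact tendsto_nhds_unique h tendsto_const_nhds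

lemma u_neg (t : AddCircle (1:ℝ)) : u (-t) = (starRingEnd ℂ) (u t) := by
  rw [u, u, ← S_conj]
  congr 1
  rw [← fourier_neg, fourier_apply, fourier_apply]
  simp

lemma coeff_conj (k : ℤ) : (starRingEnd ℂ) (fourierCoeff u k) = fourierCoeff u k := by
  rw [fourierCoeff, ← integral_conj]
  rw [← integral_neg_eq_self]
  apply integral_congr_ae
  filter_upwards with t
  simp only [smul_eq_mul, map_mul]
  rw [← fourier_neg, u_neg, Complex.conj_conj]
  congr 1
  rw [fourier_apply, fourier_apply]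
  simp

end Run7.h554.Toe
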