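import Mathlib
import Pool.Agent.Run7.h554.Toe.Inner
set_option autoImplicit false
open MeasureTheory AddCircle Filter Topology

namespace Run7.h554.Toe

local instance : Fact ((0:ℝ) < 1) := ⟨one_pos⟩

noncomputable abbrev Ell := lp (fun _ : ℕ => ℂ) 2
noncomputable abbrev L2 := Lp ℂ 2 (haarAddCircle (T := (1:ℝ)))

noncomputable def e (k : ℕ) : Ell := lp.single 2 k (1 : ℂ)

lemma inner_e_left (k : ℕ) (f : Ell) : inner ℂ (e k) f = f k := by
  rw [e, lp.inner_single_left]; simp

lemma norm_e (k : ℕ) : ‖e k‖ = 1 := by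
  rw [e, lp.norm_single (by norm_num)]; simp

lemma e_apply (k j : ℕ) : (e k) j = if j = k then 1 else 0 := by
  rw [e, lp.single_apply, Pi.single_apply]

lemma hasSum_e (x : Ell) : HasSum (fun k => x k • e k) x := by
  have h := lp.hasSum_single (E := fun _ : ℕ => ℂ) (p := 2) (by norm_num) x
  refine h.congr_fun ?_
  intro k
  rw [e, ← lp.single_smul, smul_eq_mul, mul_one]

lemma op_ext {E : Type*} [NormedAddCommGroup E] [NormedSpace ℂ E] (X Y : Ell →L[ℂ] E)
    (h : ∀ k, X (e k) = Y (e k)) : X = Y := by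
  ext1 x
  have h1 := (hasSum_e x).mapL X
  have h2 := (hasSum_e x).mapL Y
  simp only [map_smul, h] at h1
  simp only [map_smul] at h2
  exact h1.unique h2

lemma vec_ext {x y : Ell} (h : ∀ j, inner ℂ (e j) x = inner ℂ (e j) y) : x = y := by
  ext j
  rw [← inner_e_left, ← inner_e_left, h]

/-- `z ↦ u z * z^k` in `L²`. -/
lemma memLp_uz (k : ℤ) : MemLp (fun t : AddCircle (1:ℝ) => u t * fourier k t) 2 haarAddCircle := by
  apply MemLp.of_bound (C := 1)
  · exact (measurable_u.mul (measurable_fourier k)).aestronglyMeasurable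
  · filter_upwards with t
    rw [norm_mul, norm_u, norm_fourier_apply, one_mul]

noncomputable def uz (k : ℤ) : L2 := (memLp_uz k).toLp

lemma coe_uz (k : ℤ) : uz k =ᵐ[haarAddCircle] fun t => u t * fourier k t :=
  (memLp_uz k).coeFn_toLp

lemma inner_uz (k l : ℤ) : inner ℂ (uz k) (uz l) = if k = l then 1 else 0 := by
  rw [MeasureTheory.L2.inner_def]
  have h1 : (∫ t, inner ℂ ((uz k : AddCircle (1:ℝ) → ℂ) t) ((uz l : AddCircle (1:ℝ) → ℂ) t)
      ∂haarAddCircle) = fourierCoeff (fourier l : C(AddCircle (1:ℝ), ℂ)) k := by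
    rw [fourierCoeff]
    apply integral_congr_ae
    filter_upwards [coe_uz k, coe_uz l] with t h1 h2
    rw [h1, h2, RCLike.inner_apply, map_mul, ← fourier_neg, smul_eq_mul]
    have h3 : (starRingEnd ℂ) (u t) * u t = 1 := by
      rw [← Complex.normSq_eq_conj_mul_self, Complex.normSq_eq_norm_sq, norm_u]; simp
    calc u t * fourier l t * ((starRingEnd ℂ) (u t) * fourier (-k) t)
        = ((starRingEnd ℂ) (u t) * u t) * (fourier (-k) t * fourier l t) := by ring
      _ = _ := by rw [h3, one_mul]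
  rw [h1, fourierCoeff_fourier, Pi.single_apply]

lemma inner_fourier_uz (j k : ℤ) : inner ℂ (fourierLp 2 j : L2) (uz k) = fourierCoeff u (j - k) := by
  rw [MeasureTheory.L2.inner_def, fourierCoeff]
  apply integral_congr_ae
  filter_upwards [coe_uz k, coeFn_fourierLp (T := (1:ℝ)) 2 j] with t h1 h2
  rw [h1, h2, RCLike.inner_apply, ← fourier_neg, smul_eq_mul]
  have h3 : (fourier (-(j-k)) t : ℂ) = fourier (-j) t * fourier k t := by
    rw [← fourier_add]; congr 2; ring
  rw [h3]; ring

lemma orthonormal_uz : Orthonormal ℂ (fun k : ℕ => uz (k:ℤ)) := by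
  rw [orthonormal_iff_ite]
  intro i j
  rw [inner_uz]; simp

lemma orthonormal_fz : Orthonormal ℂ (fun k : ℕ => (fourierLp 2 (k:ℤ) : L2)) :=
  (orthonormal_fourier (T := (1:ℝ))).comp (fun k : ℕ => (k:ℤ)) Nat.cast_injective

noncomputable def J : Ell →L[ℂ] L2 :=
  (orthonormal_fz.orthogonalFamily.linearIsometry).toContinuousLinearMap

noncomputable def Ju : Ell →L[ℂ] L2 :=
  (orthonormal_uz.orthogonalFamily.linearIsometry).toContinuousLinearMap

lemma J_e (k : ℕ) : J (e k) = (fourierLp 2 (k:ℤ) : L2) := by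
  have h := orthonormal_fz.orthogonalFamily.linearIsometry_apply_single (i := k) (1:ℂ)
  simpa [J, e] using h

lemma Ju_e (k : ℕ) : Ju (e k) = uz (k:ℤ) := by
  have h := orthonormal_uz.orthogonalFamily.linearIsometry_apply_single (i := k) (1:ℂ)
  simpa [Ju, e] using h

lemma norm_Ju (x : Ell) : ‖Ju x‖ = ‖x‖ :=
  (orthonormal_uz.orthogonalFamily.linearIsometry).norm_map x

lemma adj_Ju : (ContinuousLinearMap.adjoint Ju) ∘L Ju = 1 := by
  have := (ContinuousLinearMap.norm_map_iff_adjoint_comp_self Ju).mp norm_Ju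
  simpa using this

lemma adj_J : (ContinuousLinearMap.adjoint J) ∘L J = 1 := by
  have h : ∀ x, ‖J x‖ = ‖x‖ := fun x =>
    (orthonormal_fz.orthogonalFamily.linearIsometry).norm_map x
  have := (ContinuousLinearMap.norm_map_iff_adjoint_comp_self J).mp h
  simpa using this

/-- The Toeplitz operator with symbol `u`. -/
noncomputable def T : Ell →L[ℂ] Ell := (ContinuousLinearMap.adjoint J) ∘L Ju

/-- its adjoint, the Toeplitz operator with symbol `conj u`. -/
noncomputable def Ts : Ell →L[ℂ] Ell := ContinuousLinearMap.adjoint T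

lemma T_entry (j k : ℕ) : (T (e k)) j = fourierCoeff u ((j:ℤ) - (k:ℤ)) := by
  rw [← inner_e_left, T, ContinuousLinearMap.comp_apply, ContinuousLinearMap.adjoint_inner_right,
    J_e, Ju_e, inner_fourier_uz]

lemma Ts_entry (j k : ℕ) : (Ts (e k)) j = fourierCoeff u ((k:ℤ) - (j:ℤ)) := by
  rw [← inner_e_left, Ts, ContinuousLinearMap.adjoint_inner_right, ← inner_conj_symm, inner_e_left,
    T_entry, coeff_conj]

lemma JJ_uz (k : ℕ) : J ((ContinuousLinearMap.adjoint J) (uz (k:ℤ))) = uz (k:ℤ) := by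
  apply (fourierBasis (T := (1:ℝ))).repr.injective
  ext j
  rw [HilbertBasis.repr_apply_apply, HilbertBasis.repr_apply_apply, coe_fourierBasis]
  rcases le_or_gt 0 j with hj | hj
  · obtain ⟨m, rfl⟩ := Int.eq_ofNat_of_zero_le hj
    rw [← J_e, ← ContinuousLinearMap.adjoint_inner_left]
    have := congrArg (fun X => X (e m)) adj_J
    simp only [ContinuousLinearMap.comp_apply, one_apply_eq_self] at this
    rw [this, ContinuousLinearMap.adjoint_inner_right]
  · rw [inner_fourier_uz, coeff_neg _ (by omega)]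
    rw [← ContinuousLinearMap.adjoint_inner_left]
    have h0 : (ContinuousLinearMap.adjoint J) (fourierLp 2 j : L2) = 0 := by
      apply vec_ext
      intro i
      rw [ContinuousLinearMap.adjoint_inner_right, J_e, inner_zero_right]
      have h := (orthonormal_fourier (T := (1:ℝ))).2 (show (i:ℤ) ≠ j by omega)
      exact h
    rw [h0, inner_zero_left]

lemma JJJu : J ∘L (ContinuousLinearMap.adjoint J) ∘L Ju = Ju := by
  apply op_ext
  intro k
  simp only [ContinuousLinearMap.comp_apply]
  rw [Ju_e, JJ_uz]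

lemma Ts_T : Ts ∘L T = 1 := by
  rw [Ts, T, ContinuousLinearMap.adjoint_comp, ContinuousLinearMap.adjoint_adjoint,
    ContinuousLinearMap.comp_assoc]
  rw [JJJu, adj_Ju]

end Run7.h554.Toe
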