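import Mathlib
import Pool.Agent.Run7.h554.Toe.Op
set_option autoImplicit false
open MeasureTheory AddCircle Filter Topology

namespace Run7.h554.Toe

local instance : Fact ((0:ℝ) < 1) := ⟨one_pos⟩

noncomputable def P (n : ℕ) : Ell →L[ℂ] Ell :=
  ∑ j ∈ Finset.range (n+1), (innerSL ℂ (e j)).smulRight (e j)

noncomputable def W (n : ℕ) : Ell →L[ℂ] Ell :=
  ∑ j ∈ Finset.range (n+1), (innerSL ℂ (e (n - j))).smulRight (e j)

lemma P_eq (n : ℕ) (x : Ell) : P n x = ∑ j ∈ Finset.range (n+1), x j • e j := by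
  simp [P, inner_e_left]

lemma W_eq (n : ℕ) (x : Ell) : W n x = ∑ j ∈ Finset.range (n+1), x (n - j) • e j := by
  simp [W, inner_e_left]

lemma sum_coord (n : ℕ) (c : ℕ → ℂ) (j : ℕ) :
    (∑ i ∈ Finset.range (n+1), c i • e i : Ell) j = if j ≤ n then c j else 0 := by
  rw [lp.coeFn_sum, Finset.sum_apply]
  simp only [lp.coeFn_smul, Pi.smul_apply, e_apply, smul_eq_mul, mul_ite, mul_one, mul_zero]
  rw [Finset.sum_ite_eq]
  simp

lemma P_coord (n : ℕ) (x : Ell) (j : ℕ) : (P n x) j = if j ≤ n then x j else 0 := by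
  rw [P_eq, sum_coord]

lemma W_coord (n : ℕ) (x : Ell) (j : ℕ) : (W n x) j = if j ≤ n then x (n - j) else 0 := by
  rw [W_eq, sum_coord n (fun i => x (n - i))]

lemma coord_ext {x y : Ell} (h : ∀ j, x j = y j) : x = y := by
  ext j; exact h j

lemma PP (n : ℕ) (x : Ell) : P n (P n x) = P n x := by
  apply coord_ext; intro j
  simp only [P_coord]; split_ifs <;> rfl

lemma WW (n : ℕ) (x : Ell) : W n (W n x) = P n x := by
  apply coord_ext; intro j
  simp only [W_coord, P_coord]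
  split_ifs with h1 h2
  · rw [Nat.sub_sub_self h1]
  · omega
  · rfl

lemma PW (n : ℕ) (x : Ell) : P n (W n x) = W n x := by
  apply coord_ext; intro j
  simp only [W_coord, P_coord]
  split_ifs <;> rfl

lemma WP (n : ℕ) (x : Ell) : W n (P n x) = W n x := by
  apply coord_ext; intro j
  simp only [W_coord, P_coord]
  split_ifs with h1 h2
  · rfl
  · omega
  · rfl

lemma P_e (n k : ℕ) : P n (e k) = if k ≤ n then e k else 0 := by
  apply coord_ext; intro j
  rw [P_coord, e_apply]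
  split_ifs with h1 h2 h3 h4 <;> simp_all [e_apply]
  omega

lemma W_e (n k : ℕ) : W n (e k) = if k ≤ n then e (n - k) else 0 := by
  apply coord_ext; intro j
  rw [W_coord, e_apply]
  by_cases hk : k ≤ n
  · rw [if_pos hk, e_apply]
    by_cases hj : j ≤ n
    · rw [if_pos hj]
      congr 1
      apply propext
      omega
    · rw [if_neg hj, if_neg (by omega)]
  · rw [if_neg hk]
    by_cases hj : j ≤ n
    · rw [if_pos hj, if_neg (by omega)]; simp
    · rw [if_neg hj]; simp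

lemma inner_P (n : ℕ) (x y : Ell) : inner ℂ (P n x) y = inner ℂ x (P n y) := by
  rw [P_eq, P_eq, sum_inner, inner_sum]
  apply Finset.sum_congr rfl
  intro j _
  rw [inner_smul_left, inner_smul_right, inner_e_left, ← inner_conj_symm x (e j), inner_e_left,
    mul_comm]

lemma inner_W (n : ℕ) (x y : Ell) : inner ℂ (W n x) y = inner ℂ x (W n y) := by
  rw [W_eq, W_eq, sum_inner, inner_sum]
  rw [← Finset.sum_range_reflect]
  apply Finset.sum_congr rfl
  intro j hj
  have hj' : j ≤ n := by simpa [Nat.lt_succ_iff] using hj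
  have h1 : n + 1 - 1 - j = n - j := by omega
  rw [h1, Nat.sub_sub_self hj']
  rw [inner_smul_left, inner_smul_right, inner_e_left, ← inner_conj_symm x (e j), inner_e_left,
    mul_comm]

lemma nsq (x : Ell) : ((‖x‖ : ℝ) : ℂ) ^ 2 = inner ℂ x x :=
  (inner_self_eq_norm_sq_to_K x).symm

lemma norm_P_le (n : ℕ) (x : Ell) : ‖P n x‖ ≤ ‖x‖ := by
  have h : ‖P n x‖ ^ 2 ≤ ‖P n x‖ * ‖x‖ := by
    have h1 : (‖P n x‖ : ℂ) ^ 2 = inner ℂ (P n x) x := by
      rw [nsq, inner_P, PP, ← inner_P]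
    have h2 : ‖P n x‖ ^ 2 = ‖(inner ℂ (P n x) x : ℂ)‖ := by
      rw [← h1]; simp
    rw [h2]
    exact norm_inner_le_norm _ _
  rcases eq_or_lt_of_le (norm_nonneg (P n x)) with h0 | h0
  · rw [← h0]; exact norm_nonneg _
  · nlinarith

lemma norm_W (n : ℕ) (x : Ell) : ‖W n x‖ = ‖P n x‖ := by
  have h1 : (‖W n x‖ : ℂ) ^ 2 = (‖P n x‖ : ℂ) ^ 2 := by
    rw [nsq, nsq, inner_W, WW, inner_P, PP]
  have h2 : ‖W n x‖ ^ 2 = ‖P n x‖ ^ 2 := by exact_mod_cast h1
  exact (sq_eq_sq₀ (norm_nonneg _) (norm_nonneg _)).mp h2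

lemma norm_W_le (n : ℕ) (x : Ell) : ‖W n x‖ ≤ ‖x‖ := by
  rw [norm_W]; exact norm_P_le n x

lemma P_tendsto (x : Ell) : Tendsto (fun n => P n x) atTop (𝓝 x) := by
  have h := (hasSum_e x).tendsto_sum_nat
  have h2 := h.comp (tendsto_add_atTop_nat 1)
  refine h2.congr ?_
  intro n
  simp [P_eq]

noncomputable def G (n : ℕ) : Ell →L[ℂ] Ell := P n * T * P n
noncomputable def H (n : ℕ) : Ell →L[ℂ] Ell := P n * Ts * P n

lemma G_apply (n : ℕ) (x : Ell) : G n x = P n (T (P n x)) := rfl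
lemma H_apply (n : ℕ) (x : Ell) : H n x = P n (Ts (P n x)) := rfl

lemma T_norm (x : Ell) : ‖T x‖ = ‖x‖ := by
  have h := (ContinuousLinearMap.norm_map_iff_adjoint_comp_self T).mpr Ts_T
  exact h x

lemma Ts_norm_le (x : Ell) : ‖Ts x‖ ≤ ‖x‖ := by
  have h1 : ‖Ts‖ ≤ 1 := by
    rw [Ts, LinearIsometryEquiv.norm_map]
    apply ContinuousLinearMap.opNorm_le_bound _ zero_le_one
    intro y; rw [T_norm, one_mul]
  calc ‖Ts x‖ ≤ ‖Ts‖ * ‖x‖ := Ts.le_opNorm x
    _ ≤ 1 * ‖x‖ := by gcongr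
    _ = ‖x‖ := one_mul _

lemma norm_G_le (n : ℕ) (x : Ell) : ‖G n x‖ ≤ ‖x‖ := by
  rw [G_apply]
  exact (norm_P_le n _).trans ((T_norm _).le.trans (norm_P_le n x))

lemma norm_H_le (n : ℕ) (x : Ell) : ‖H n x‖ ≤ ‖x‖ := by
  rw [H_apply]
  exact (norm_P_le n _).trans ((Ts_norm_le _).trans (norm_P_le n x))

lemma inner_T (x y : Ell) : inner ℂ (T x) y = inner ℂ x (Ts y) := by
  rw [Ts, ContinuousLinearMap.adjoint_inner_right]

lemma inner_Ts (x y : Ell) : inner ℂ (Ts x) y = inner ℂ x (T y) := by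
  rw [Ts, ContinuousLinearMap.adjoint_inner_left]

lemma inner_G (n : ℕ) (x y : Ell) : inner ℂ (G n x) y = inner ℂ x (H n y) := by
  rw [G_apply, H_apply, inner_P, inner_T, inner_P]

lemma inner_H (n : ℕ) (x y : Ell) : inner ℂ (H n x) y = inner ℂ x (G n y) := by
  rw [G_apply, H_apply, inner_P, inner_Ts, inner_P]

lemma PG (n : ℕ) (x : Ell) : P n (G n x) = G n x := by rw [G_apply, PP]
lemma GP (n : ℕ) (x : Ell) : G n (P n x) = G n x := by rw [G_apply, G_apply, PP]
lemma PH (n : ℕ) (x : Ell) : P n (H n x) = H n x := by rw [H_apply, PP]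
lemma HP (n : ℕ) (x : Ell) : H n (P n x) = H n x := by rw [H_apply, H_apply, PP]

/-- `W_n T_n(u) W_n = T_n(conj u)`. -/
lemma WGW (n : ℕ) (x : Ell) : W n (G n (W n x)) = H n x := by
  have h : (W n).comp ((G n).comp (W n)) = H n := by
    apply op_ext
    intro k
    simp only [ContinuousLinearMap.comp_apply]
    rw [W_e, H_apply, P_e]
    by_cases hk : k ≤ n
    · rw [if_pos hk, if_pos hk, G_apply, P_e, if_pos (Nat.sub_le n k)]
      apply coord_ext
      intro j
      rw [W_coord, P_coord, P_coord, Ts_entry, T_entry]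
      by_cases hj : j ≤ n
      · rw [if_pos hj, if_pos hj, if_pos (Nat.sub_le n j)]
        congr 1
        omega
      · rw [if_neg hj, if_neg hj]
    · rw [if_neg hk, if_neg hk]; simp
  exact congrArg (fun X => X x) h

lemma GW (n : ℕ) (x : Ell) : G n (W n x) = W n (H n x) := by
  rw [← WGW, WW, PG]

lemma WG (n : ℕ) (x : Ell) : W n (G n x) = H n (W n x) := by
  rw [← WGW n (W n x), WW, GP]

lemma HW (n : ℕ) (x : Ell) : H n (W n x) = W n (G n x) := (WG n x).symm

lemma WH (n : ℕ) (x : Ell) : W n (H n x) = G n (W n x) := (GW n x).symm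

noncomputable def A (n : ℕ) : Ell →L[ℂ] Ell := (P n - G n * H n) * (P n - H n * G n)

lemma A_apply (n : ℕ) (x : Ell) :
    A n x = P n (P n x - H n (G n x)) - G n (H n (P n x - H n (G n x))) := rfl

lemma strong {X : ℕ → Ell →L[ℂ] Ell} {y : ℕ → Ell} {c : ℝ} {x z : Ell}
    (hc : ∀ n v, ‖X n v‖ ≤ c * ‖v‖) (hX : Tendsto (fun n => X n x) atTop (𝓝 z))
    (hy : Tendsto y atTop (𝓝 x)) : Tendsto (fun n => X n (y n)) atTop (𝓝 z) := by
  have h1 : Tendsto (fun n => X n (y n - x)) atTop (𝓝 0) := by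
    have h2 : Tendsto (fun n => c * ‖y n - x‖) atTop (𝓝 0) := by
      have h3 : Tendsto (fun n => ‖y n - x‖) atTop (𝓝 0) := by
        rw [tendsto_iff_norm_sub_tendsto_zero] at hy; exact hy
      simpa using h3.const_mul c
    exact squeeze_zero_norm (fun n => hc n _) h2
  have h4 := h1.add hX
  rw [zero_add] at h4
  refine h4.congr ?_
  intro n
  rw [map_sub]; abel

lemma P_strong {y : ℕ → Ell} {x : Ell} (hy : Tendsto y atTop (𝓝 x)) :
    Tendsto (fun n => P n (y n)) atTop (𝓝 x) :=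
  strong (c := 1) (fun n v => by rw [one_mul]; exact norm_P_le n v) (P_tendsto x) hy

lemma G_strong {y : ℕ → Ell} {x : Ell} (hy : Tendsto y atTop (𝓝 x)) :
    Tendsto (fun n => G n (y n)) atTop (𝓝 (T x)) := by
  simp only [G_apply]
  apply P_strong
  exact (T.continuous.tendsto x).comp (P_strong hy)

lemma H_strong {y : ℕ → Ell} {x : Ell} (hy : Tendsto y atTop (𝓝 x)) :
    Tendsto (fun n => H n (y n)) atTop (𝓝 (Ts x)) := by
  simp only [H_apply]
  apply P_strong
  exact (Ts.continuous.tendsto x).comp (P_strong hy)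

lemma Ts_T_apply (x : Ell) : Ts (T x) = x := by
  have := congrArg (fun X => X x) Ts_T
  simpa using this

lemma B_strong {y : ℕ → Ell} {x : Ell} (hy : Tendsto y atTop (𝓝 x)) :
    Tendsto (fun n => P n (y n) - H n (G n (y n))) atTop (𝓝 0) := by
  have h := (P_strong hy).sub (H_strong (G_strong hy))
  rw [Ts_T_apply, sub_self] at h
  exact h

lemma A_strong (x : Ell) : Tendsto (fun n => A n x) atTop (𝓝 0) := by
  have h1 := B_strong (tendsto_const_nhds (x := x))
  have h2 := (P_strong h1).sub (G_strong (H_strong h1))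
  simpa [A_apply] using h2

lemma WAW (n : ℕ) (x : Ell) :
    W n (A n (W n x)) = P n (P n x - G n (H n x)) - H n (G n (P n x - G n (H n x))) := by
  rw [A_apply, map_sub, WG, WH]
  have h1 : W n (P n (W n x) - H n (G n (W n x))) = P n x - G n (H n x) := by
    rw [map_sub, PW, WW, GW, HW, WW, PG]
  rw [h1]
  congr 1
  rw [WP, h1, map_sub, PP, PG]

lemma WAW_strong (x : Ell) : Tendsto (fun n => W n (A n (W n x))) atTop (𝓝 0) := by
  have h0 := tendsto_const_nhds (x := x) (f := (atTop : Filter ℕ))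
  have h1 := (P_strong h0).sub (G_strong (H_strong h0))
  have h2 := B_strong h1
  simpa only [WAW] using h2

end Run7.h554.Toe
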