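import Mathlib
import Pool.Agent.Run7.h554.Toe.Sec
set_option autoImplicit false
open MeasureTheory AddCircle Filter Topology

namespace Run7.h554.Toe

local instance : Fact ((0:ℝ) < 1) := ⟨one_pos⟩

lemma memlp_geom (c : ℝ) (h0 : 0 ≤ c) (h1 : c < 1) :
    Memℓp (fun j : ℕ => ((c : ℂ)) ^ j) 2 := by
  apply memℓp_gen
  have h : ∀ j : ℕ, ‖((c:ℂ)) ^ j‖ ^ (2:ENNReal).toReal = (c ^ 2) ^ j := by
    intro j
    rw [norm_pow, Complex.norm_real, Real.norm_of_nonneg h0]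
    simp only [ENNReal.toReal_ofNat, Real.rpow_ofNat]
    ring
  simp_rw [h]
  exact summable_geometric_of_lt_one (by positivity) (by nlinarith)

noncomputable def kl (c : ℝ) (h0 : 0 ≤ c) (h1 : c < 1) : Ell := ⟨_, memlp_geom c h0 h1⟩

variable (c : ℝ) (h0 : 0 ≤ c) (h1 : c < 1)

lemma kl_coord (j : ℕ) : (kl c h0 h1) j = (c : ℂ) ^ j := rfl

lemma norm_kl : ‖kl c h0 h1‖ ^ 2 = (1 - c ^ 2)⁻¹ := by
  have h := lp.hasSum_inner (𝕜 := ℂ) (kl c h0 h1) (kl c h0 h1)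
  have e1 : ∀ j, inner ℂ ((kl c h0 h1) j) ((kl c h0 h1) j) = (((c ^ 2) ^ j : ℝ) : ℂ) := by
    intro j
    rw [kl_coord, RCLike.inner_apply, map_pow, Complex.conj_ofReal]
    push_cast; ring
  simp_rw [e1] at h
  have h2 := hasSum_geometric_of_lt_one (r := c^2) (by positivity) (by nlinarith)
  have h3 := (Complex.hasSum_ofReal.mpr h2).unique h
  rw [← nsq] at h3
  exact_mod_cast h3.symm

/-- The Cauchy kernel is an eigenvector of `T(u)^*`. -/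
lemma Ts_kl : Ts (kl c h0 h1) = S c • kl c h0 h1 := by
  apply vec_ext
  intro j
  rw [← inner_T, inner_smul_right, inner_e_left, kl_coord]
  have h := lp.hasSum_inner (𝕜 := ℂ) (T (e j)) (kl c h0 h1)
  have hc : ‖(c:ℂ)‖ < 1 := by rwa [Complex.norm_real, Real.norm_of_nonneg h0]
  have h2 := (hasSum_S (c:ℂ) hc).mul_right ((c:ℂ) ^ j)
  refine h.unique ?_
  rw [← hasSum_nat_add_iff' j]
  have e0 : ∑ i ∈ Finset.range j, inner ℂ ((T (e j)) i) ((kl c h0 h1) i) = (0:ℂ) := by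
    apply Finset.sum_eq_zero
    intro i hi
    have hi' : i < j := by simpa using hi
    rw [T_entry, coeff_neg _ (by omega)]
    simp
  rw [e0, sub_zero]
  refine h2.congr_fun ?_
  intro m
  rw [T_entry, RCLike.inner_apply, coeff_conj, kl_coord]
  have : ((m + j : ℕ) : ℤ) - (j : ℤ) = (m : ℤ) := by push_cast; ring
  rw [this, coeff_nat]
  ring

lemma tail_norm (n : ℕ) :
    ‖kl c h0 h1 - P n (kl c h0 h1)‖ ^ 2 = (c ^ (n + 1)) ^ 2 * ‖kl c h0 h1‖ ^ 2 := by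
  set r := kl c h0 h1 - P n (kl c h0 h1) with hr
  have hrc : ∀ j, r j = if j ≤ n then 0 else (c:ℂ) ^ j := by
    intro j
    rw [hr, lp.coeFn_sub, Pi.sub_apply, P_coord, kl_coord]
    split_ifs <;> simp
  have h := lp.hasSum_inner (𝕜 := ℂ) r r
  rw [← hasSum_nat_add_iff' (n+1)] at h
  have e0 : ∑ i ∈ Finset.range (n+1), inner ℂ (r i) (r i) = (0:ℂ) := by
    apply Finset.sum_eq_zero
    intro i hi
    have hi' : i ≤ n := by simpa [Nat.lt_succ_iff] using hi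
    rw [hrc, if_pos hi']; simp
  rw [e0, sub_zero] at h
  have e1 : ∀ m : ℕ, inner ℂ (r (m + (n+1))) (r (m + (n+1)))
      = ((((c ^ (n+1)) ^ 2 * (c ^ 2) ^ m : ℝ)) : ℂ) := by
    intro m
    rw [hrc, if_neg (by omega), RCLike.inner_apply, map_pow, Complex.conj_ofReal]
    push_cast; ring
  simp_rw [e1] at h
  have h2 := (hasSum_geometric_of_lt_one (r := c^2) (by positivity) (by nlinarith)).mul_left
    ((c ^ (n+1)) ^ 2)
  have h3 := (Complex.hasSum_ofReal.mpr h2).unique h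
  rw [← nsq, ← norm_kl c h0 h1] at h3
  exact_mod_cast h3.symm

lemma tail_norm' (n : ℕ) :
    ‖kl c h0 h1 - P n (kl c h0 h1)‖ = c ^ (n + 1) * ‖kl c h0 h1‖ := by
  have h := tail_norm c h0 h1 n
  rw [← mul_pow] at h
  exact (sq_eq_sq₀ (norm_nonneg _) (by positivity)).mp h

include h0 h1 in
lemma norm_Sc : ‖S (c:ℂ)‖ = Real.exp (-((1 + c) / (1 - c))) := by
  rw [norm_S]
  congr 2
  have h3 : (1 - (c:ℂ)) = ((1 - c : ℝ) : ℂ) := by push_cast; ring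
  rw [h3, Complex.norm_real, Complex.norm_real, Real.norm_of_nonneg h0,
    Real.norm_of_nonneg (by linarith)]
  have : (1 - c) ≠ 0 := by linarith
  field_simp
  ring

lemma H_small (n : ℕ) : ‖H n (P n (kl c h0 h1))‖ ≤
    (‖S (c:ℂ)‖ + c ^ (n+1)) * ‖kl c h0 h1‖ := by
  have h : H n (P n (kl c h0 h1)) =
      S c • P n (kl c h0 h1) - P n (Ts (kl c h0 h1 - P n (kl c h0 h1))) := by
    rw [HP, H_apply, map_sub Ts, Ts_kl, map_sub, map_smul]
    abel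
  rw [h]
  refine (norm_sub_le _ _).trans ?_
  rw [norm_smul, add_mul]
  apply add_le_add
  · exact mul_le_mul_of_nonneg_left (norm_P_le _ _) (norm_nonneg _)
  · exact (norm_P_le _ _).trans ((Ts_norm_le _).trans (tail_norm' c h0 h1 n).le)

lemma inner_PWP (n : ℕ) : inner ℂ (P n (kl c h0 h1)) (W n (kl c h0 h1)) =
    ((((n:ℝ) + 1) * c ^ n : ℝ) : ℂ) := by
  rw [inner_P, PW]
  have h := lp.hasSum_inner (𝕜 := ℂ) (kl c h0 h1) (W n (kl c h0 h1))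
  refine h.unique ?_
  have h2 : HasSum (fun i : ℕ => inner ℂ ((kl c h0 h1) i) ((W n (kl c h0 h1)) i))
      (∑ i ∈ Finset.range (n+1), inner ℂ ((kl c h0 h1) i) ((W n (kl c h0 h1)) i)) := by
    apply hasSum_sum_of_ne_finset_zero
    intro b hb
    have hb' : ¬ b ≤ n := by simpa [Nat.lt_succ_iff] using hb
    rw [W_coord, if_neg hb', inner_zero_right]
  have h3 : ∑ i ∈ Finset.range (n+1), inner ℂ ((kl c h0 h1) i) ((W n (kl c h0 h1)) i)
      = ((((n:ℝ) + 1) * c ^ n : ℝ) : ℂ) := by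
    have h4 : ∀ i ∈ Finset.range (n+1), inner ℂ ((kl c h0 h1) i) ((W n (kl c h0 h1)) i)
        = (c:ℂ) ^ n := by
      intro i hi
      have hi' : i ≤ n := by simpa [Nat.lt_succ_iff] using hi
      rw [W_coord, if_pos hi', kl_coord, kl_coord, RCLike.inner_apply, map_pow,
        Complex.conj_ofReal, ← pow_add]
      congr 1; omega
    rw [Finset.sum_congr rfl h4, Finset.sum_const, Finset.card_range, nsmul_eq_mul]
    push_cast; ring
  rw [h3] at h2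
  exact h2

include h0 h1 in
/-- The main lower bound. -/
lemma A_lower (n : ℕ) :
    ((n:ℝ) + 1) * c ^ n * (1 - c ^ 2) ≤
      ‖A n‖ + 2 * (‖S (c:ℂ)‖ + c ^ (n+1)) + (‖S (c:ℂ)‖ + c ^ (n+1)) ^ 2 := by
  set k := kl c h0 h1 with hk
  set y := P n k with hy
  set ε := ‖S (c:ℂ)‖ + c ^ (n+1) with hε
  have hε0 : 0 ≤ ε := by positivity
  set z := W n k with hz
  have hkpos : 0 < ‖k‖ ^ 2 := by
    rw [hk, norm_kl]
    have : 0 < 1 - c ^ 2 := by nlinarith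
    positivity
  have hH : ‖H n y‖ ≤ ε * ‖k‖ := H_small c h0 h1 n
  have hyk : ‖y‖ ≤ ‖k‖ := norm_P_le _ _
  have hzk : ‖z‖ ≤ ‖k‖ := norm_W_le _ _
  have ha : ‖G n (H n y)‖ ≤ ε * ‖k‖ := (norm_G_le _ _).trans hH
  have hb : ‖H n (G n z)‖ ≤ ε * ‖k‖ := by
    refine (norm_H_le _ _).trans ?_
    rw [hz, GW, norm_W, PH, ← HP]
    exact hH
  have hA : inner ℂ y (A n z) = inner ℂ (y - G n (H n y)) (z - H n (G n z)) := by
    rw [A_apply, hz, PW, ← hz]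
    rw [inner_sub_right, ← inner_P, inner_sub_left]
    rw [show P n y = y from PP n k]
    congr 1
    rw [← inner_H, ← inner_G]
  have hexp : inner ℂ (y - G n (H n y)) (z - H n (G n z)) =
      inner ℂ y z - inner ℂ y (H n (G n z)) - inner ℂ (G n (H n y)) z
        + inner ℂ (G n (H n y)) (H n (G n z)) := by
    rw [inner_sub_left, inner_sub_right, inner_sub_right]; ring
  have hyz : inner ℂ y z = ((((n:ℝ) + 1) * c ^ n : ℝ) : ℂ) := inner_PWP c h0 h1 n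
  have hn1 : ‖(inner ℂ y z : ℂ)‖ = ((n:ℝ) + 1) * c ^ n := by
    rw [hyz, Complex.norm_real, Real.norm_of_nonneg (by positivity)]
  have hmain : ((n:ℝ) + 1) * c ^ n ≤ ‖A n‖ * ‖k‖ ^ 2 + 2 * ε * ‖k‖ ^ 2 + ε ^ 2 * ‖k‖ ^ 2 := by
    have e1 : (inner ℂ y z : ℂ) = inner ℂ y (A n z) + inner ℂ y (H n (G n z))
        + inner ℂ (G n (H n y)) z - inner ℂ (G n (H n y)) (H n (G n z)) := by
      rw [hA, hexp]; ring
    rw [← hn1, e1]
    have b1 : ‖(inner ℂ y (A n z) : ℂ)‖ ≤ ‖A n‖ * ‖k‖ ^ 2 := by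
      calc ‖(inner ℂ y (A n z) : ℂ)‖ ≤ ‖y‖ * ‖A n z‖ := norm_inner_le_norm _ _
        _ ≤ ‖k‖ * (‖A n‖ * ‖k‖) := by
            gcongr
            exact ((A n).le_opNorm z).trans (by gcongr)
        _ = ‖A n‖ * ‖k‖ ^ 2 := by ring
    have b2 : ‖(inner ℂ y (H n (G n z)) : ℂ)‖ ≤ ε * ‖k‖ ^ 2 := by
      calc ‖(inner ℂ y (H n (G n z)) : ℂ)‖ ≤ ‖y‖ * ‖H n (G n z)‖ := norm_inner_le_norm _ _
        _ ≤ ‖k‖ * (ε * ‖k‖) := by gcongr
        _ = ε * ‖k‖ ^ 2 := by ring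
    have b3 : ‖(inner ℂ (G n (H n y)) z : ℂ)‖ ≤ ε * ‖k‖ ^ 2 := by
      calc ‖(inner ℂ (G n (H n y)) z : ℂ)‖ ≤ ‖G n (H n y)‖ * ‖z‖ := norm_inner_le_norm _ _
        _ ≤ (ε * ‖k‖) * ‖k‖ := by gcongr
        _ = ε * ‖k‖ ^ 2 := by ring
    have b4 : ‖(inner ℂ (G n (H n y)) (H n (G n z)) : ℂ)‖ ≤ ε ^ 2 * ‖k‖ ^ 2 := by
      calc ‖(inner ℂ (G n (H n y)) (H n (G n z)) : ℂ)‖ ≤ ‖G n (H n y)‖ * ‖H n (G n z)‖ :=
            norm_inner_le_norm _ _
        _ ≤ (ε * ‖k‖) * (ε * ‖k‖) := by gcongr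
        _ = ε ^ 2 * ‖k‖ ^ 2 := by ring
    calc _ ≤ ‖(inner ℂ y (A n z) : ℂ)‖ + ‖(inner ℂ y (H n (G n z)) : ℂ)‖
          + ‖(inner ℂ (G n (H n y)) z : ℂ)‖ + ‖(inner ℂ (G n (H n y)) (H n (G n z)) : ℂ)‖ := by
            refine (norm_sub_le _ _).trans ?_
            gcongr
            refine (norm_add_le _ _).trans ?_
            gcongr
            exact norm_add_le _ _
      _ ≤ _ := by linarith
  have hkn : ‖k‖ ^ 2 * (1 - c ^ 2) = 1 := by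
    rw [hk, norm_kl]
    have : (1 - c ^ 2) ≠ 0 := by nlinarith
    field_simp
  have hpos : 0 ≤ 1 - c ^ 2 := by nlinarith
  calc ((n:ℝ) + 1) * c ^ n * (1 - c ^ 2)
      ≤ (‖A n‖ * ‖k‖ ^ 2 + 2 * ε * ‖k‖ ^ 2 + ε ^ 2 * ‖k‖ ^ 2) * (1 - c ^ 2) := by gcongr
    _ = (‖A n‖ + 2 * ε + ε ^ 2) * (‖k‖ ^ 2 * (1 - c ^ 2)) := by ring
    _ = _ := by rw [hkn, mul_one]

end Run7.h554.Toe
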