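import Mathlib
import Pool.Agent.Run7.h554.Toe.Low
set_option autoImplicit false
open MeasureTheory AddCircle Filter Topology

namespace Run7.h554.Toe

local instance : Fact ((0:ℝ) < 1) := ⟨one_pos⟩

lemma coord_tendsto (x : Ell) : Tendsto (fun j => x j) atTop (𝓝 0) := by
  have h := (hasSum_e x).summable.tendsto_atTop_zero
  have h2 := h.norm
  rw [norm_zero] at h2
  rw [tendsto_zero_iff_norm_tendsto_zero]
  refine h2.congr ?_
  intro j
  rw [norm_smul, norm_e, mul_one]

lemma weak_W (x y : Ell) : Tendsto (fun n => (inner ℂ y (W n x) : ℂ)) atTop (𝓝 0) := by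
  have h1 : ∀ m : ℕ, Tendsto (fun n => (inner ℂ (P m y) (W n x) : ℂ)) atTop (𝓝 0) := by
    intro m
    have h2 : ∀ n, (inner ℂ (P m y) (W n x) : ℂ) =
        ∑ j ∈ Finset.range (m+1), (starRingEnd ℂ) (y j) * (W n x) j := by
      intro n
      rw [P_eq, sum_inner]
      apply Finset.sum_congr rfl
      intro j _
      rw [inner_smul_left, inner_e_left]
    simp_rw [h2]
    have h3 : (0:ℂ) = ∑ j ∈ Finset.range (m+1), (starRingEnd ℂ) (y j) * 0 := by simp
    rw [h3]
    apply tendsto_finsetSum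
    intro j _
    apply Tendsto.const_mul
    have h4 : Tendsto (fun n => x (n - j)) atTop (𝓝 0) :=
      (coord_tendsto x).comp (tendsto_sub_atTop_nat j)
    refine h4.congr' ?_
    filter_upwards [eventually_ge_atTop j] with n hn
    rw [W_coord, if_pos hn]
  rw [Metric.tendsto_atTop]
  intro ε hε
  have h5 : Tendsto (fun m => ‖y - P m y‖ * (‖x‖ + 1)) atTop (𝓝 0) := by
    have h6 := (tendsto_iff_norm_sub_tendsto_zero.mp (P_tendsto y))
    have h7 : Tendsto (fun m => ‖y - P m y‖) atTop (𝓝 0) := by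
      refine h6.congr ?_
      intro n; rw [norm_sub_rev]
    simpa using h7.mul_const (‖x‖ + 1)
  obtain ⟨m, hm⟩ := ((tendsto_order.mp h5).2 (ε/2) (by linarith)).exists
  obtain ⟨N, hN⟩ := (Metric.tendsto_atTop.mp (h1 m)) (ε/2) (by linarith)
  refine ⟨N, fun n hn => ?_⟩
  have h8 := hN n hn
  rw [dist_zero_right] at h8 ⊢
  have h9 : (inner ℂ y (W n x) : ℂ) = inner ℂ (y - P m y) (W n x) + inner ℂ (P m y) (W n x) := by
    rw [inner_sub_left]; ring
  rw [h9]
  have h10 : ‖(inner ℂ (y - P m y) (W n x) : ℂ)‖ ≤ ‖y - P m y‖ * (‖x‖ + 1) := by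
    refine (norm_inner_le_norm _ _).trans ?_
    gcongr
    exact (norm_W_le n x).trans (by linarith)
  calc _ ≤ ‖(inner ℂ (y - P m y) (W n x) : ℂ)‖ + ‖(inner ℂ (P m y) (W n x) : ℂ)‖ := norm_add_le _ _
    _ < ε := by linarith

lemma compact_W (K : Ell →L[ℂ] Ell) (hK : IsCompactOperator K) (x : Ell) :
    Tendsto (fun n => K (W n x)) atTop (𝓝 0) := by
  obtain ⟨C, hC, hsub⟩ := IsCompactOperator.image_closedBall_subset_compact (𝕜₁ := ℂ)
    (f := (K : Ell →ₗ[ℂ] Ell)) hK ‖x‖
  apply hC.tendsto_nhds_of_unique_mapClusterPt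
  · filter_upwards with n
    apply hsub
    refine ⟨W n x, ?_, rfl⟩
    simpa using norm_W_le n x
  · intro y _ hy
    apply vec_ext
    intro j
    rw [inner_zero_right]
    have hcont : Continuous (fun v : Ell => (inner ℂ (e j) v : ℂ)) := by fun_prop
    have h1 := hy.continuousAt_comp hcont.continuousAt
    have h2 : Tendsto (fun n => (inner ℂ (e j) (K (W n x)) : ℂ)) atTop (𝓝 0) := by
      have h3 := weak_W x (ContinuousLinearMap.adjoint K (e j))
      refine h3.congr ?_
      intro n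
      rw [ContinuousLinearMap.adjoint_inner_left]
    have h4 : MapClusterPt (inner ℂ (e j) y : ℂ) atTop
      (fun n => (inner ℂ (e j) (K (W n x)) : ℂ)) := h1
    exact eq_of_nhds_neBot (Filter.NeBot.mono h4 (inf_le_inf_left _ h2))

lemma A_not_tendsto (h : Tendsto (fun n => ‖A n‖) atTop (𝓝 0)) : False := by
  have key : ∀ᶠ n : ℕ in atTop, (1/2) * Real.exp (-3) ≤ ‖A n‖ + 5 * Real.exp (-(n:ℝ)) := by
    filter_upwards [eventually_ge_atTop 7] with n hn
    have hn' : (7:ℝ) ≤ n := by exact_mod_cast hn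
    set c : ℝ := 1 - 2 / ((n:ℝ) + 1) with hc
    have hnp : (0:ℝ) < (n:ℝ) + 1 := by linarith
    have h0 : 0 ≤ c := by
      rw [hc, sub_nonneg, div_le_one hnp]; linarith
    have h1 : c < 1 := by
      rw [hc]; have : 0 < 2 / ((n:ℝ) + 1) := by positivity
      linarith
    have hlow := A_lower c h0 h1 n
    have hS : ‖S (c:ℂ)‖ = Real.exp (-(n:ℝ)) := by
      rw [norm_Sc c h0 h1]
      congr 2
      rw [hc]; field_simp; ring
    rw [hS] at hlow
    set s := Real.exp (-(n:ℝ)) with hs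
    have hs0 : 0 < s := Real.exp_pos _
    have hs1 : s ≤ 1 := by rw [hs, Real.exp_le_one_iff]; linarith
    set q := c ^ n with hq
    have hq0 : 0 ≤ q := by positivity
    have hq1 : q ≤ 1 := pow_le_one₀ h0 h1.le
    have hqq : c ^ (n+1) ≤ q := by
      rw [pow_succ]; nlinarith
    have hqq0 : 0 ≤ c ^ (n+1) := by positivity
    have e1 : ((n:ℝ) + 1) * q * (1 - c ^ 2) = q * (4 - 4 / ((n:ℝ)+1)) := by
      rw [hc]; field_simp; ring
    have e2 : 4 / ((n:ℝ)+1) ≤ 1/2 := by
      rw [div_le_div_iff₀ hnp (by norm_num)]; linarith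
    have e3 : q * (7/2) ≤ ((n:ℝ) + 1) * q * (1 - c ^ 2) := by
      rw [e1]; nlinarith
    have e4 : (s + c ^ (n+1)) ^ 2 ≤ 3 * s + q := by
      have : (s + c ^ (n+1)) ^ 2 ≤ (s + q) ^ 2 := by
        apply pow_le_pow_left₀ (by positivity); linarith
      nlinarith
    have e5 : (1/2) * q ≤ ‖A n‖ + 5 * s := by linarith
    have e6 : Real.exp (-3) ≤ q := by
      have hm : (0:ℝ) < (n:ℝ) - 1 := by linarith
      have f1 : Real.exp (-(2 / ((n:ℝ) - 1))) ≤ c := by
        have f2 := Real.add_one_le_exp (2 / ((n:ℝ) - 1))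
        rw [Real.exp_neg]
        have f3 : c = (2 / ((n:ℝ) - 1) + 1)⁻¹ := by
          rw [hc]; field_simp; ring
        rw [f3]
        apply inv_anti₀ (by positivity) f2
      have f4 : Real.exp (-(2 / ((n:ℝ) - 1))) ^ n ≤ q := pow_le_pow_left₀ (Real.exp_pos _).le f1 n
      refine le_trans ?_ f4
      rw [← Real.exp_nat_mul, Real.exp_le_exp]
      have f5 : (n:ℝ) * (2 / ((n:ℝ) - 1)) ≤ 3 := by
        rw [mul_div_assoc', div_le_iff₀ hm]; linarith
      linarith
    linarith
  have hlim : Tendsto (fun n : ℕ => ‖A n‖ + 5 * Real.exp (-(n:ℝ))) atTop (𝓝 (0 + 5 * 0)) := by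
    apply h.add
    apply Tendsto.const_mul
    exact (Real.tendsto_exp_neg_atTop_nhds_zero).comp tendsto_natCast_atTop_atTop
  have := ge_of_tendsto hlim key
  have h3 := Real.exp_pos (-3)
  norm_num at this
  linarith

lemma not_decomp (K K' : Ell →L[ℂ] Ell) (hK' : IsCompactOperator K')
    (C : ℕ → Ell →L[ℂ] Ell) (hC : Tendsto (fun n => ‖C n‖) atTop (𝓝 0))
    (hA : ∀ n, A n = P n * K * P n + W n * K' * W n + C n) : False := by
  have hCx : ∀ y : ℕ → Ell, ∀ b : ℝ, (∀ n, ‖y n‖ ≤ b) →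
      Tendsto (fun n => C n (y n)) atTop (𝓝 0) := by
    intro y b hb
    have h1 : Tendsto (fun n => ‖C n‖ * b) atTop (𝓝 0) := by simpa using hC.mul_const b
    apply squeeze_zero_norm _ h1
    intro n
    exact ((C n).le_opNorm _).trans (by gcongr; exact hb n)
  have hAx : ∀ n x, A n x = P n (K (P n x)) + W n (K' (W n x)) + C n x := by
    intro n x; rw [hA n]; rfl
  have hK0 : K = 0 := by
    ext1 x
    have h1 : Tendsto (fun n => A n x) atTop (𝓝 (K x + 0 + 0)) := by
      simp_rw [hAx]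
      refine Tendsto.add (Tendsto.add ?_ ?_) ?_
      · exact P_strong ((K.continuous.tendsto x).comp (P_tendsto x))
      · apply squeeze_zero_norm (fun n => norm_W_le n _)
        have := (compact_W K' hK' x).norm
        simpa using this
      · exact hCx (fun _ => x) ‖x‖ (fun _ => le_rfl)
    have h2 := tendsto_nhds_unique h1 (A_strong x)
    simpa using h2
  have hK0' : K' = 0 := by
    ext1 x
    have h1 : Tendsto (fun n => W n (A n (W n x))) atTop (𝓝 (K' x + 0)) := by
      have h3 : ∀ n, W n (A n (W n x)) = P n (K' (P n x)) + W n (C n (W n x)) := by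
        intro n
        rw [hAx, hK0]
        simp only [_root_.zero_apply, map_zero, zero_add]
        rw [map_add, WW, WW]
      simp_rw [h3]
      refine Tendsto.add ?_ ?_
      · exact P_strong ((K'.continuous.tendsto x).comp (P_tendsto x))
      · apply squeeze_zero_norm (fun n => norm_W_le n _)
        have := (hCx (fun n => W n x) ‖x‖ (fun n => norm_W_le n x)).norm
        simpa using this
    have h2 := tendsto_nhds_unique h1 (WAW_strong x)
    simpa using h2
  apply A_not_tendsto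
  refine hC.congr ?_
  intro n
  rw [hA n, hK0, hK0']
  simp

lemma memLp_top (f : AddCircle (1:ℝ) → ℂ) (hf : Measurable f) (hb : ∀ t, ‖f t‖ = 1) :
    MemLp f ⊤ (volume : Measure (AddCircle (1:ℝ))) := by
  apply memLp_top_of_bound hf.aestronglyMeasurable 1
  filter_upwards with t
  rw [hb]

lemma coeff_toLp_top (f : AddCircle (1:ℝ) → ℂ) (hf : Measurable f) (hb : ∀ t, ‖f t‖ = 1) (k : ℤ) :
    fourierCoeff (⇑((memLp_top f hf hb).toLp f) : AddCircle (1:ℝ) → ℂ) k = fourierCoeff f k := by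
  have h := (memLp_top f hf hb).coeFn_toLp
  have h2 : (⇑((memLp_top f hf hb).toLp f) : AddCircle (1:ℝ) → ℂ) =ᵐ[haarAddCircle] f := by
    have h3 : (volume : Measure (AddCircle (1:ℝ))) = haarAddCircle := by
      rw [AddCircle.volume_eq_smul_haarAddCircle]; simp
    rw [← h3]
    exact h
  rw [fourierCoeff_congr_ae h2]

/-- the generating set -/
def Gen : Set (ℕ → (Ell →L[ℂ] Ell)) :=
  {X | ∃ a : Lp ℂ ⊤ (volume : Measure (AddCircle (1 : ℝ))),
    ∃ T : Ell →L[ℂ] Ell,
      (∀ j k : ℕ, (T (lp.single 2 k (1 : ℂ) : Ell)) j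
        = fourierCoeff (⇑a : AddCircle (1 : ℝ) → ℂ) ((j : ℤ) - (k : ℤ))) ∧
      ∀ n, X n = P n * T * P n}

lemma G_mem : G ∈ Gen := by
  refine ⟨(memLp_top u measurable_u norm_u).toLp u, T, ?_, fun n => rfl⟩
  intro j k
  rw [coeff_toLp_top u measurable_u norm_u]
  exact T_entry j k

lemma H_mem : H ∈ Gen := by
  have m1 : Measurable (fun t => (starRingEnd ℂ) (u t)) :=
    (Complex.continuous_conj.measurable).comp measurable_u
  have m2 : ∀ t, ‖(starRingEnd ℂ) (u t)‖ = 1 := fun t => by rw [RCLike.norm_conj, norm_u]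
  refine ⟨(memLp_top _ m1 m2).toLp _, Ts, ?_, fun n => rfl⟩
  intro j k
  rw [coeff_toLp_top _ m1 m2]
  have h1 : fourierCoeff (fun t => (starRingEnd ℂ) (u t)) ((j:ℤ) - (k:ℤ))
      = (starRingEnd ℂ) (fourierCoeff u ((k:ℤ) - (j:ℤ))) := by
    rw [fourierCoeff, fourierCoeff, ← integral_conj]
    apply integral_congr_ae
    filter_upwards with t
    simp only [smul_eq_mul, map_mul]
    rw [← fourier_neg]
    congr 3
    ring
  rw [h1, coeff_conj]
  exact Ts_entry j k

lemma P_mem : P ∈ Gen := by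
  have m1 : Measurable (fun _ : AddCircle (1:ℝ) => (1:ℂ)) := measurable_const
  have m2 : ∀ t : AddCircle (1:ℝ), ‖(1:ℂ)‖ = 1 := fun t => by simp
  refine ⟨(memLp_top _ m1 m2).toLp _, 1, ?_, ?_⟩
  · intro j k
    rw [coeff_toLp_top _ m1 m2]
    have h1 : fourierCoeff (fun _ : AddCircle (1:ℝ) => (1:ℂ)) ((j:ℤ) - (k:ℤ))
        = fourierCoeff (fourier 0 : C(AddCircle (1:ℝ), ℂ)) ((j:ℤ) - (k:ℤ)) := by
      congr 1
      ext t
      simp
    rw [h1, fourierCoeff_fourier, Pi.single_apply]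
    have h2 : ((1 : Ell →L[ℂ] Ell) (lp.single 2 k (1:ℂ) : Ell)) j = (e k) j := rfl
    rw [h2, e_apply]
    congr 1
    apply propext
    omega
  · intro n
    ext1 x
    change P n x = P n (P n x)
    rw [PP]

lemma A_mem : A ∈ NonUnitalAlgebra.adjoin ℂ Gen := by
  have hG := NonUnitalAlgebra.subset_adjoin ℂ G_mem
  have hH := NonUnitalAlgebra.subset_adjoin ℂ H_mem
  have hP := NonUnitalAlgebra.subset_adjoin ℂ P_mem
  have h : A = (P - G * H) * (P - H * G) := rfl
  rw [h]
  exact mul_mem (sub_mem hP (mul_mem hG hH)) (sub_mem hP (mul_mem hH hG))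

end Run7.h554.Toe
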